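import Pool.Agent.Helper70.RC.Goals

/-!
# Project TW (MP_c7dfba_nt), part RC, packet TT: the transfer theorem
-/

set_option autoImplicit false

namespace Pool.Agent.Helper9.TW

open Pool.Agent.Helper70.RC

universe u

theorem hom_aeval {σ : Type*} {S : Type*} {S' : Type*} [CommRing S] [CommRing S'] [Algebra ℤ S] [Algebra ℤ S']
    (ρ : S →+* S') (y : σ → S)
    (Q : MvPolynomial σ ℤ) : ρ (MvPolynomial.aeval y Q) = MvPolynomial.aeval (fun s => ρ (y s)) Q := by
  induction Q using MvPolynomial.induction_on with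
  | C a => rw [MvPolynomial.aeval_C, MvPolynomial.aeval_C, eq_intCast, eq_intCast, map_intCast]
  | add p q hp hq => rw [map_add, map_add, map_add, hp, hq]
  | mul_X p s hp => rw [map_mul, map_mul, map_mul, hp, MvPolynomial.aeval_X, MvPolynomial.aeval_X]

/-- **TT.** -/
theorem tt : EC.{u} → ULTRA.{u} → GERM.{u} → TT.{u} := by
  intro hEC hULTRA hGERM A B Λ _ _ _ P hP R _ _ c
  obtain ⟨I, U, ⟨φ⟩⟩ := hULTRA R
  haveI : IsRealClosed ((U : Filter I).Germ ℝ) := hGERM I U
  letI : Algebra R ((U : Filter I).Germ ℝ) := φ.toAlgebra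
  have h1 : ∀ s : A, ∃ f : I → ℝ, ((f : I → ℝ) : (U : Filter I).Germ ℝ) = φ (c s) := fun s =>
    Quotient.exists_rep (φ (c s))
  choose cr hcr using h1
  have h2 : ∀ i : I, ∃ x : B → ℝ, ∀ l, MvPolynomial.aeval (Sum.elim (fun s => cr s i) x) (P l) = 0 := fun i =>
    hP fun s => cr s i
  choose xr hxr using h2
  let X : B → (U : Filter I).Germ ℝ := fun s => ((fun i => xr i s : I → ℝ) : (U : Filter I).Germ ℝ)
  let ρ : (I → ℝ) →+* (U : Filter I).Germ ℝ := Filter.Germ.coeRingHom (U : Filter I)
  have h3 : ∀ l, MvPolynomial.aeval (Sum.elim (fun s => φ (c s)) X) (P l) = 0 := by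
    intro l
    have h4 : (fun s => ρ (Sum.elim cr (fun s i => xr i s) s)) = Sum.elim (fun s => φ (c s)) X := by
      funext s
      rcases s with s | s
      · exact hcr s
      · rfl
    rw [← h4, ← hom_aeval ρ]
    have h5 : MvPolynomial.aeval (Sum.elim cr (fun s i => xr i s)) (P l) = (0 : I → ℝ) := by
      funext i
      have h6 := hom_aeval (Pi.evalRingHom (fun _ : I => ℝ) i) (Sum.elim cr (fun s i => xr i s)) (P l)
      have h7 : (fun s => Pi.evalRingHom (fun _ : I => ℝ) i (Sum.elim cr (fun s i => xr i s) s)) =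
          Sum.elim (fun s => cr s i) (xr i) := by
        funext s
        rcases s with s | s <;> rfl
      rw [h7, hxr i l] at h6
      exact h6
    rw [h5, map_zero]
  let e := Fintype.equivFin B
  obtain ⟨a, ha⟩ := hEC (Fintype.card B) R ((U : Filter I).Germ ℝ) (fun j => X (e.symm j))
  refine ⟨fun b => a (e b), fun l => ?_⟩
  have h8 := ha (MvPolynomial.aeval (Sum.elim (fun s => MvPolynomial.C (c s))
    (fun b => MvPolynomial.X (e b)) : A ⊕ B → MvPolynomial (Fin (Fintype.card B)) R) (P l)) ?_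
  · have h9 := hom_aeval (MvPolynomial.eval a) (Sum.elim (fun s => MvPolynomial.C (c s))
      (fun b => MvPolynomial.X (e b)) : A ⊕ B → MvPolynomial (Fin (Fintype.card B)) R) (P l)
    rw [h8] at h9
    rw [h9]
    congr 2
    funext s
    rcases s with s | s
    · simp
    · simp
  · have h9 := hom_aeval ((MvPolynomial.aeval fun j => X (e.symm j)) :
      MvPolynomial (Fin (Fintype.card B)) R →ₐ[R] (U : Filter I).Germ ℝ).toRingHom
      (Sum.elim (fun s => MvPolynomial.C (c s))
      (fun b => MvPolynomial.X (e b)) : A ⊕ B → MvPolynomial (Fin (Fintype.card B)) R) (P l)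
    refine Eq.trans h9 ?_
    rw [← h3 l]
    congr 2
    funext s
    rcases s with s | s
    · show (MvPolynomial.aeval fun j => X (e.symm j)) (MvPolynomial.C (c s)) = φ (c s)
      rw [MvPolynomial.aeval_C]
      rfl
    · show (MvPolynomial.aeval fun j => X (e.symm j)) (MvPolynomial.X (e s)) = X s
      rw [MvPolynomial.aeval_X, Equiv.symm_apply_apply]

end Pool.Agent.Helper9.TW
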